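import Pool.Agent.Work.MP_223b32_tl.Interface

/-!
# Block T1-CYC (MP_223b32_ag): the factorisation of `X ^ g - η`
-/

set_option autoImplicit false

namespace Pool.Agent.Work.TL

open Finset Polynomial

namespace CYC

theorem relprime {d e : ℕ} (hd : 0 < d) (he : 0 < e) (hne : d ≠ e) :
    IsRelPrime (cyclotomic d ℤ) (cyclotomic e ℤ) := by
  rw [(cyclotomic.irreducible hd).isRelPrime_iff_not_dvd]
  intro hdvd
  have h1 : Associated (cyclotomic d ℤ) (cyclotomic e ℤ) :=
    (cyclotomic.irreducible hd).associated_of_dvd (cyclotomic.irreducible he) hdvd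
  have h2 := eq_of_monic_of_associated (cyclotomic.monic d ℤ) (cyclotomic.monic e ℤ) h1
  exact hne (cyclotomic_injective h2)

theorem pos_of_mem {g : ℕ} {η : ℤ} {d : ℕ} (hd : d ∈ DD g η) : 0 < d := by
  unfold DD at hd
  split_ifs at hd with h
  · exact Nat.pos_of_mem_divisors hd
  · exact Nat.pos_of_mem_divisors (Finset.mem_filter.mp hd).1

theorem prod_eq {g : ℕ} {η : ℤ} (hg : 1 ≤ g) (hη : η = 1 ∨ η = -1) :
    ∏ d ∈ DD g η, cyclotomic d ℤ = X ^ g - C η := by
  rcases hη with h | h
  · subst h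
    unfold DD
    rw [if_pos rfl, prod_cyclotomic_eq_X_pow_sub_one (by omega)]
    simp
  · subst h
    unfold DD
    rw [if_neg (by norm_num)]
    have h1 := prod_cyclotomic_eq_X_pow_sub_one (R := ℤ) (n := 2 * g) (by omega)
    have h2 := prod_cyclotomic_eq_X_pow_sub_one (R := ℤ) (n := g) (by omega)
    rw [← Finset.prod_filter_mul_prod_filter_not (2 * g).divisors (fun d => d ∣ g)] at h1
    have h3 : (2 * g).divisors.filter (fun d => d ∣ g) = g.divisors := by
      ext d
      simp only [Finset.mem_filter, Nat.mem_divisors]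
      constructor
      · rintro ⟨-, h⟩
        exact ⟨h, by omega⟩
      · rintro ⟨h, -⟩
        exact ⟨⟨h.mul_left 2, by omega⟩, h⟩
    rw [h3, h2] at h1
    have h4 : (X ^ (2 * g) - 1 : ℤ[X]) = (X ^ g - 1) * (X ^ g + 1) := by ring
    rw [h4] at h1
    have h5 : (X ^ g - 1 : ℤ[X]) ≠ 0 := by
      have := X_pow_sub_C_ne_zero (R := ℤ) (n := g) (by omega) 1
      simpa using this
    have h6 := mul_left_cancel₀ h5 h1
    rw [h6]
    simp

end CYC

theorem stmt_CYC : Stmt_CYC := by
  intro g η hg hη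
  have hprod := CYC.prod_eq hg hη
  have hrel : ∀ s ⊆ DD g η, (s : Set ℕ).Pairwise
      (Function.onFun IsRelPrime fun d => cyclotomic d ℤ) := by
    intro s hs d hd e he hne
    exact CYC.relprime (CYC.pos_of_mem (hs hd)) (CYC.pos_of_mem (hs he)) hne
  have hPsi : ∀ d ∈ DD g η, Psi g η d = ∏ e ∈ (DD g η).erase d, cyclotomic e ℤ := by
    intro d hd
    unfold Psi
    rw [← hprod, ← Finset.mul_prod_erase _ _ hd]
    exact mul_divByMonic_cancel_left _ (cyclotomic.monic d ℤ)
  refine ⟨?_, ?_, ?_⟩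
  · intro d hd
    have h1 : cyclotomic d ℤ * Psi g η d = X ^ g - C η := by
      rw [hPsi d hd, Finset.mul_prod_erase (DD g η) (fun e => cyclotomic e ℤ) hd, hprod]
    have h2 : (Psi g η d).Monic := by
      rw [hPsi d hd]
      exact monic_prod_of_monic _ _ fun e _ => cyclotomic.monic e ℤ
    refine ⟨h1, h2, ?_⟩
    have h3 := congrArg natDegree h1
    rw [(cyclotomic.monic d ℤ).natDegree_mul h2, natDegree_cyclotomic,
      natDegree_X_pow_sub_C] at h3
    omega
  · intro P hP
    rw [← hprod]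
    exact Finset.prod_dvd_of_isRelPrime (hrel _ (Finset.Subset.refl _)) hP
  · intro d₀ hd₀ P hP
    rw [hPsi d₀ hd₀]
    refine Finset.prod_dvd_of_isRelPrime (hrel _ (Finset.erase_subset _ _)) ?_
    intro d hd
    rw [Finset.mem_erase] at hd
    exact hP d hd.2 hd.1

end Pool.Agent.Work.TL
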