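import Pool.Agent.Work.MP_223b32_tl.Interface

/-!
# Block T1-DESC (MP_223b32_ag): descent, for `q` not a square and `q = 1` modulo `8`
-/

set_option autoImplicit false

namespace Pool.Agent.Work.TL

open Finset Polynomial Pool.Agent.Work.MP_223b32_ag Pool.Agent.Work.MP_223b32_ag_56
  Pool.Agent.Work.TC

namespace DESC

/-- the multiplicative functional `∑ a_i X^i ↦ ∏ (f i)^(a_i)` -/
noncomputable def L (f : ℕ → ℂˣ) : ℤ[X] →+ Additive ℂˣ where
  toFun P := P.sum fun i a => a • Additive.ofMul (f i)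
  map_zero' := by simp
  map_add' P Q := by
    refine Polynomial.sum_add_index P Q _ (fun i => by simp) fun a b₁ b₂ => add_zsmul _ _ _

theorem L_monomial (f : ℕ → ℂˣ) (i : ℕ) (a : ℤ) :
    L f (monomial i a) = a • Additive.ofMul (f i) := by
  change (monomial i a).sum (fun i a => a • Additive.ofMul (f i)) = _
  rw [Polynomial.sum_monomial_index]
  simp

/-- value in `ℂ` -/
noncomputable def LC (f : ℕ → ℂˣ) (P : ℤ[X]) : ℂ := ((L f P).toMul : ℂˣ)

theorem LC_add (f : ℕ → ℂˣ) (P Q : ℤ[X]) : LC f (P + Q) = LC f P * LC f Q := by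
  unfold LC
  rw [map_add]
  simp

theorem LC_zsmul (f : ℕ → ℂˣ) (a : ℤ) (P : ℤ[X]) : LC f (a • P) = LC f P ^ a := by
  unfold LC
  rw [map_zsmul]
  simp

theorem LC_ne (f : ℕ → ℂˣ) (P : ℤ[X]) : LC f P ≠ 0 := Units.ne_zero _

theorem LC_monomial (f : ℕ → ℂˣ) (i : ℕ) (a : ℤ) : LC f (monomial i a) = (f i : ℂ) ^ a := by
  unfold LC
  rw [L_monomial]
  simp

theorem LC_sum (f : ℕ → ℂˣ) {ι : Type} (s : Finset ι) (P : ι → ℤ[X]) :
    LC f (∑ k ∈ s, P k) = ∏ k ∈ s, LC f (P k) := by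
  induction s using Finset.cons_induction with
  | empty => simp [LC]
  | cons a s ha ih => rw [Finset.sum_cons, Finset.prod_cons, LC_add, ih]

theorem LC_eq_prod (f : ℕ → ℂˣ) (P : ℤ[X]) :
    LC f P = ∏ i ∈ P.support, (f i : ℂ) ^ P.coeff i := by
  conv_lhs => rw [P.as_sum_support]
  rw [LC_sum]
  exact Finset.prod_congr rfl fun i _ => LC_monomial f i _

theorem LC_mul (f : ℕ → ℂˣ) (Q : ℤ[X]) (n : ℕ) (e : ℂ) (he : e ≠ 0)
    (h : ∀ j : ℕ, LC f (X ^ j * Q) ^ n = e) (c : ℤ[X]) :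
    LC f (c * Q) ^ n = e ^ (c.eval 1) := by
  induction c using Polynomial.induction_on' with
  | add p q hp hq =>
    rw [add_mul, LC_add, mul_pow, hp, hq, eval_add, zpow_add₀ he]
  | monomial j a =>
    have h1 : monomial j a * Q = a • (X ^ j * Q) := by
      rw [← C_mul_X_pow_eq_monomial, zsmul_eq_mul, mul_assoc]
      simp
    rw [h1, LC_zsmul, ← zpow_natCast, ← zpow_mul, mul_comm a (n : ℤ), zpow_mul, zpow_natCast, h j]
    simp

/-- an element congruent to 1 modulo 2 -/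
theorem prod_one_add {ι : Type} (s : Finset ι) (c : ι → AA) (h : ∀ k ∈ s, ∃ w : AA, c k = 1 + 2 * w) :
    ∃ W : AA, ∏ k ∈ s, c k = 1 + 2 * W := by
  induction s using Finset.cons_induction with
  | empty => exact ⟨0, by simp⟩
  | cons a s ha ih =>
    obtain ⟨W, hW⟩ := ih fun k hk => h k (Finset.mem_cons_of_mem hk)
    obtain ⟨w, hw⟩ := h a (Finset.mem_cons_self a s)
    exact ⟨w + W + 2 * w * W, by rw [Finset.prod_cons, hW, hw]; ring⟩

theorem sum_odd {ι : Type} (s : Finset ι) (e : ι → ℤ) (he : ∀ k ∈ s, e k = 1 ∨ e k = -1) :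
    Odd (∑ k ∈ s, e k) ↔ Odd s.card := by
  induction s using Finset.cons_induction with
  | empty => simp
  | cons a s ha ih =>
    have h1 := ih fun k hk => he k (Finset.mem_cons_of_mem hk)
    have h2 : Odd (e a) := by
      rcases he a (Finset.mem_cons_self a s) with h | h <;> rw [h] <;> decide
    rw [Finset.sum_cons, Finset.card_cons, Int.odd_add, Nat.odd_add_one, ← h1]
    simp only [h2, true_iff, Int.not_odd_iff_even]

/-- the square root of `q = 1 + 8 k` is fixed by the Frobenius automorphism -/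
theorem sigma_s (ρ : AA →+* Om) (σ : AA ≃+* AA) (frob : ∀ x, ρ (σ x) = ρ x ^ 2) (q k : ℕ)
    (hk : q = 1 + 8 * k) (s : AA) (hs : s ^ 2 = (q : AA)) : σ s = s := by
  have h2 : (2 : Om) = 0 := CharTwo.two_eq_zero
  have hsC : (s : ℂ) ^ 2 = 1 + 8 * (k : ℂ) := by
    have h : (s : ℂ) ^ 2 = (q : ℂ) := by
      have := congrArg (fun x : AA => (x : ℂ)) hs
      simpa using this
    rw [h, hk]
    push_cast
    ring
  have hy : IsIntegral ℤ ((1 + (s : ℂ)) / 2) := by
    refine ⟨X ^ 2 - X - C (2 * (k : ℤ)), ?_, ?_⟩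
    · monicity!
    · have h3 : (algebraMap ℤ ℂ) (2 * (k : ℤ)) = 2 * (k : ℂ) := by simp
      simp only [eval₂_sub, eval₂_X_pow, eval₂_X, eval₂_C, h3]
      linear_combination hsC / 4
  let y : AA := ⟨(1 + (s : ℂ)) / 2, hy⟩
  have hys : 2 * y = 1 + s := by
    apply Subtype.ext
    change 2 * ((1 + (s : ℂ)) / 2) = 1 + (s : ℂ)
    ring
  have hyy : y ^ 2 = y + 2 * (k : AA) := by
    apply Subtype.ext
    change ((1 + (s : ℂ)) / 2) ^ 2 = (1 + (s : ℂ)) / 2 + 2 * (k : ℂ)
    linear_combination hsC / 4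
  have h1 : ρ (σ y) = ρ y := by
    rw [frob, ← map_pow, hyy, map_add, map_mul]
    have : ρ 2 = 0 := by rw [map_ofNat]; exact h2
    rw [this]
    ring
  have h3 : σ s = s ∨ σ s = -s := by
    apply sq_eq_sq_iff_eq_or_eq_neg.mp
    rw [← map_pow, hs, map_natCast]
  rcases h3 with h3 | h3
  · exact h3
  · exfalso
    have h4 : 2 * σ y = 1 + σ s := by
      rw [← map_ofNat σ 2, ← map_mul, hys, map_add, map_one]
    have h5 : σ y = 1 - y := by
      have : (2 : AA) * σ y = 2 * (1 - y) := by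
        rw [h4, h3]
        linear_combination hys
      exact mul_left_cancel₀ two_ne_zero this
    rw [h5, map_sub, map_one] at h1
    have h6 : (1 : Om) = 2 * ρ y := by linear_combination h1
    rw [h2, zero_mul] at h6
    exact one_ne_zero h6

end DESC

open DESC in
theorem stmt_DESC (hTAU : Stmt_TAU) (hRU : Stmt_RU) : Stmt_DESC := by
  intro n g η q ρ σ r ζ al be w v O hq8 hqsq m g' hg hg' _ I hI hdiv hPsi
  obtain ⟨k, hk⟩ : ∃ k, q = 1 + 8 * k := ⟨q / 8, by omega⟩
  have hq0 : (q : ℂ) ≠ 0 := by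
    have : q ≠ 0 := by omega
    exact_mod_cast this
  have hq0A : (q : AA) ≠ 0 := by
    have : q ≠ 0 := by omega
    exact_mod_cast this
  have hη : η = 1 ∨ η = -1 := by
    rcases O.per with h | h
    · exact Or.inl h.1
    · exact Or.inr h.1
  have hηk : ∀ k : ℕ, η ^ k = 1 ∨ η ^ k = -1 := by
    intro k
    rcases hη with h | h
    · left; rw [h, one_pow]
    · rw [h]; exact neg_one_pow_eq_or ℤ k
  have hnodd : Odd n := ⟨g, O.two_g⟩
  -- the square root
  obtain ⟨s, hs⟩ : ∃ s : AA, s ^ 2 = (q : AA) := by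
    obtain ⟨z, hz⟩ := IsAlgClosed.exists_pow_nat_eq (q : ℂ) (n := 2) (by norm_num)
    have hzi : IsIntegral ℤ z := by
      apply IsIntegral.of_pow (n := 2) (by norm_num)
      rw [hz]
      exact_mod_cast isIntegral_algebraMap (R := ℤ) (A := ℂ) (x := (q : ℤ))
    exact ⟨⟨z, hzi⟩, Subtype.ext (by simpa using hz)⟩
  have hσs : σ s = s := sigma_s ρ σ O.frob q k hk s hs
  obtain ⟨τ, hτ⟩ := hTAU q hqsq s hs
  have hS2 : (s : ℂ) ^ 2 = q := by
    have := congrArg (fun x : AA => (x : ℂ)) hs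
    simpa using this
  have hS0 : (s : ℂ) ≠ 0 := by
    intro h
    rw [h] at hS2
    exact hq0 (by rw [← hS2]; ring)
  have hs0 : s ≠ 0 := by
    intro h
    apply hS0
    rw [h]
    simp
  have hal0A : ∀ i, al i ≠ 0 := by
    intro i h
    have := O.mul i
    rw [h, zero_mul] at this
    exact hq0A this.symm
  have hmulC : ∀ i, (al i : ℂ) * (be i : ℂ) = q := by
    intro i
    have := congrArg (fun x : AA => (x : ℂ)) (O.mul i)
    simpa using this
  have hal0 : ∀ i, (al i : ℂ) ≠ 0 := by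
    intro i h
    have := hmulC i
    rw [h, zero_mul] at this
    exact hq0 this.symm
  have hshb : ∀ i, be (i + 1) = σ (be i) := by
    intro i
    have h1 : al (i + 1) * be (i + 1) = al (i + 1) * σ (be i) := by
      rw [O.mul, O.shift, ← map_mul, O.mul, map_natCast]
    exact mul_left_cancel₀ (hal0A _) h1
  let f : ℕ → ℂˣ := fun i => Units.mk0 ((al i : ℂ) / s) (div_ne_zero (hal0 i) hS0)
  let cN : ℤ → ℕ → AA := fun e i => if e = 1 then al i else be i
  have hcN : ∀ e : ℤ, (e = 1 ∨ e = -1) → ∀ i, ((f i : ℂˣ) : ℂ) ^ e = (cN e i : ℂ) / s := by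
    intro e he i
    rcases he with rfl | rfl
    · simp [f, cN]
    · have : (-1 : ℤ) ≠ 1 := by norm_num
      simp only [f, cN, if_neg this, Units.val_mk0, zpow_neg_one]
      rw [inv_div, div_eq_div_iff (hal0 i) hS0, ← pow_two, hS2, ← hmulC i]
      ring
  have hcσ : ∀ e i, σ (cN e i) = cN e (i + 1) := by
    intro e i
    simp only [cN]
    split_ifs
    · exact (O.shift i).symm
    · exact (hshb i).symm
  have hcpow : ∀ e i, ∃ x : AA, cN e i ^ n = 1 + 2 * x := by
    intro e i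
    simp only [cN]
    split_ifs
    · exact ⟨_, O.pow_al i⟩
    · exact ⟨_, O.pow_be i⟩
  have hcτ : ∀ e i, ∃ j, ∃ e' : ℤ, (e' = 1 ∨ e' = -1) ∧ τ (cN e i) = cN e' j := by
    intro e i
    obtain ⟨j, -, hj⟩ := O.aut τ i
    have hmulτ : τ (al i) * τ (be i) = q := by
      rw [← map_mul, O.mul, map_natCast]
    have hne : (-1 : ℤ) ≠ 1 := by norm_num
    rcases hj with hj | hj
    · have hb : τ (be i) = be j := by
        rw [hj, ← O.mul j] at hmulτ
        exact mul_left_cancel₀ (hal0A j) hmulτ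
      simp only [cN]
      split_ifs
      · exact ⟨j, 1, Or.inl rfl, by simp [hj]⟩
      · exact ⟨j, -1, Or.inr rfl, by simp [hb, hne]⟩
    · have hbe0 : be j ≠ 0 := by
        intro h
        have := O.mul j
        rw [h, mul_zero] at this
        exact hq0A this.symm
      have hb : τ (be i) = al j := by
        rw [hj, ← O.mul j, mul_comm (al j)] at hmulτ
        exact mul_left_cancel₀ hbe0 hmulτ
      simp only [cN]
      split_ifs
      · exact ⟨j, -1, Or.inr rfl, by simp [hj, hne]⟩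
      · exact ⟨j, 1, Or.inl rfl, by simp [hb]⟩
  have hTh : ∀ P, Th q al P = LC f P ^ 2 := by
    intro P
    rw [LC_eq_prod, ← Finset.prod_pow]
    unfold Th
    refine Finset.prod_congr rfl fun i _ => ?_
    have h1 : ((al i : ℂ) ^ 2 / q) = (((f i : ℂˣ) : ℂ)) ^ 2 := by
      simp only [f, Units.val_mk0]
      rw [div_pow, hS2]
    rw [h1, ← zpow_natCast, ← zpow_natCast, ← zpow_mul, ← zpow_mul, mul_comm]
  -- the products
  let U : ℕ → AA := fun j => ∏ k ∈ range g', cN (η ^ k) (m * k + j)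
  have hUσ : ∀ j, σ (U j) = U (j + 1) := by
    intro j
    simp only [U]
    rw [map_prod]
    refine Finset.prod_congr rfl fun k _ => ?_
    rw [hcσ, add_assoc]
  have hLU : ∀ j, LC f (X ^ j * Psi0 g' m η) = (U j : ℂ) / (s : ℂ) ^ g' := by
    intro j
    have h1 : X ^ j * Psi0 g' m η = ∑ k ∈ range g', monomial (m * k + j) (η ^ k) := by
      unfold Psi0
      rw [Finset.mul_sum]
      refine Finset.sum_congr rfl fun k _ => ?_
      rw [← C_mul_X_pow_eq_monomial, pow_add]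
      ring
    rw [h1, LC_sum]
    have h2 : ∀ k ∈ range g', LC f (monomial (m * k + j) (η ^ k)) =
        (cN (η ^ k) (m * k + j) : ℂ) / s := by
      intro k _
      rw [LC_monomial, hcN _ (hηk k)]
    rw [Finset.prod_congr rfl h2, Finset.prod_div_distrib, Finset.prod_const, Finset.card_range]
    congr 1
    simp only [U]
    push_cast
    rfl
  have hL0 : LC f (Psi0 g' m η) = (U 0 : ℂ) / (s : ℂ) ^ g' := by
    have := hLU 0
    rwa [pow_zero, one_mul] at this
  -- the power is one modulo four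
  obtain ⟨W, hW⟩ : ∃ W : AA, U 0 ^ n = 1 + 2 * W := by
    simp only [U]
    rw [← Finset.prod_pow]
    exact prod_one_add _ _ fun k _ => hcpow _ _
  obtain ⟨k', hk'⟩ : ∃ k' : ℕ, q ^ (g' * n) = 1 + 8 * k' := by
    have h1 : q ^ (g' * n) % 8 = 1 := by
      rw [Nat.pow_mod, hq8, one_pow]
      norm_num
    exact ⟨q ^ (g' * n) / 8, by omega⟩
  set ω : ℂ := LC f (Psi0 g' m η) ^ (2 * n) with hω
  have hn0 : 0 < n := by have := O.two_g; omega
  obtain ⟨M, hM0, hM⟩ := (hI _).mp hPsi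
  have hωM : ω ^ M = 1 := by
    rw [hTh] at hM
    rw [hω]
    calc (LC f (Psi0 g' m η) ^ (2 * n)) ^ M = ((LC f (Psi0 g' m η) ^ 2) ^ M) ^ n := by ring
      _ = 1 := by rw [hM, one_pow]
  have hωi : IsIntegral ℤ ω := by
    apply IsIntegral.of_pow hM0
    rw [hωM]
    exact isIntegral_one
  have hUω : (U 0 : ℂ) ^ (2 * n) = ω * (q : ℂ) ^ (g' * n) := by
    have h1 : (q : ℂ) ^ (g' * n) = ((s : ℂ) ^ g') ^ (2 * n) := by
      rw [← hS2]
      ring
    rw [hω, hL0, div_pow, h1]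
    exact (div_mul_cancel₀ _ (pow_ne_zero _ (pow_ne_zero _ hS0))).symm
  have hω1 : ω = 1 := by
    refine hRU ω M hM0 hωM (W + W ^ 2 - 2 * (k' : AA) * ⟨ω, hωi⟩) ?_
    have e2 : ((2 : AA) : ℂ) = 2 := rfl
    have h1 : (U 0 : ℂ) ^ n = 1 + 2 * (W : ℂ) := by
      have := congrArg (fun x : AA => (x : ℂ)) hW
      simpa [e2] using this
    have h2 : ((q : ℂ)) ^ (g' * n) = 1 + 8 * (k' : ℂ) := by exact_mod_cast hk'
    have h3 : (1 + 2 * (W : ℂ)) ^ 2 = ω * (1 + 8 * (k' : ℂ)) := by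
      rw [← h1, ← h2, ← hUω]
      ring
    push_cast
    rw [e2]
    linear_combination -h3
  have hUsq : (U 0 ^ n) ^ 2 = (s ^ (g' * n)) ^ 2 := by
    apply Subtype.ext
    push_cast
    rw [← pow_mul, mul_comm n 2, hUω, hω1, one_mul, ← hS2]
    ring
  obtain ⟨e0, he0, hUe⟩ : ∃ e0 : ℤ, (e0 = 1 ∨ e0 = -1) ∧ U 0 ^ n = (e0 : AA) * s ^ (g' * n) := by
    rcases sq_eq_sq_iff_eq_or_eq_neg.mp hUsq with h | h
    · exact ⟨1, Or.inl rfl, by rw [h]; simp⟩
    · exact ⟨-1, Or.inr rfl, by rw [h]; simp⟩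
  have hUj : ∀ j, U j ^ n = (e0 : AA) * s ^ (g' * n) := by
    intro j
    induction j with
    | zero => exact hUe
    | succ j ih => rw [← hUσ, ← map_pow, ih, map_mul, map_intCast, map_pow, hσs]
  have hLj : ∀ j : ℕ, LC f (X ^ j * Psi0 g' m η) ^ n = (e0 : ℂ) := by
    intro j
    have h1 : (U j : ℂ) ^ n = (e0 : ℂ) * (s : ℂ) ^ (g' * n) := by
      have := congrArg (fun x : AA => (x : ℂ)) (hUj j)
      simpa using this
    rw [hLU, div_pow, h1, ← pow_mul]
    exact mul_div_cancel_right₀ _ (pow_ne_zero _ hS0)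
  -- the image under τ
  choose jj ee hee hτc using fun k : ℕ => hcτ (η ^ k) (m * k)
  set P' : ℤ[X] := ∑ k ∈ range g', monomial (jj k) (ee k) with hP'
  have hLP : LC f P' = ((τ (U 0) : AA) : ℂ) / (s : ℂ) ^ g' := by
    rw [hP', LC_sum]
    have h2 : ∀ k ∈ range g', LC f (monomial (jj k) (ee k)) = (cN (ee k) (jj k) : ℂ) / s := by
      intro k _
      rw [LC_monomial, hcN _ (hee k)]
    rw [Finset.prod_congr rfl h2, Finset.prod_div_distrib, Finset.prod_const, Finset.card_range]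
    congr 1
    simp only [U]
    rw [map_prod]
    push_cast
    refine Finset.prod_congr rfl fun k _ => ?_
    rw [add_zero, hτc k]
  have hτU : τ (U 0) ^ n = -((e0 : AA) * s ^ (g' * n)) := by
    rw [← map_pow, hUe, map_mul, map_intCast, map_pow, hτ, (hg'.mul hnodd).neg_pow]
    ring
  have hLPn : LC f P' ^ n = -(e0 : ℂ) := by
    have h1 : ((τ (U 0) : AA) : ℂ) ^ n = -((e0 : ℂ) * (s : ℂ) ^ (g' * n)) := by
      have := congrArg (fun x : AA => (x : ℂ)) hτU
      simpa using this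
    rw [hLP, div_pow, h1, ← pow_mul, neg_div]
    congr 1
    exact mul_div_cancel_right₀ _ (pow_ne_zero _ hS0)
  have he0sq : (e0 : ℂ) ^ 2 = 1 := by
    rcases he0 with h | h <;> rw [h] <;> norm_num
  have hP'I : P' ∈ I := by
    rw [hI]
    refine ⟨n, hn0, ?_⟩
    rw [hTh]
    calc (LC f P' ^ 2) ^ n = (LC f P' ^ n) ^ 2 := by ring
      _ = 1 := by rw [hLPn, neg_sq, he0sq]
  obtain ⟨c, hc⟩ := hdiv _ hP'I
  have he0C : (e0 : ℂ) ≠ 0 := by
    intro h
    rw [h] at he0sq
    norm_num at he0sq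
  have hLc : LC f P' ^ n = (e0 : ℂ) ^ (c.eval 1) := by
    rw [hc, mul_comm]
    exact LC_mul f _ n _ he0C hLj c
  have hodd : Odd (P'.eval 1) := by
    have h1 : P'.eval 1 = ∑ k ∈ range g', ee k := by
      rw [hP', eval_finsetSum]
      refine Finset.sum_congr rfl fun k _ => ?_
      rw [eval_monomial, one_pow, mul_one]
    rw [h1, sum_odd _ _ fun k _ => hee k, Finset.card_range]
    exact hg'
  have hcodd : Odd (c.eval 1) := by
    rw [hc, eval_mul] at hodd
    exact (Int.odd_mul.mp hodd).2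
  rw [hLPn] at hLc
  rcases he0 with h | h
  · rw [h, Int.cast_one, one_zpow] at hLc
    norm_num at hLc
  · rw [h] at hLc
    push_cast at hLc
    rw [hcodd.neg_one_zpow] at hLc
    norm_num at hLc

end Pool.Agent.Work.TL
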